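import Pool.Agent.L7h35.RQ5.Stm

set_option autoImplicit false

/-! Project QR, part NV. -/

namespace Pool.Agent.L7h44.RQ5

open Pool.Agent.L7h35.RQ5

theorem h_mem (n : ℕ) : ∃ A : Finset ℕ, (∀ a ∈ A, 0 < a) ∧ A.card = n ∧ (R A).card = h n := by
  have h1 : {k | ∃ A : Finset ℕ, (∀ a ∈ A, 0 < a) ∧ A.card = n ∧ (R A).card = k}.Nonempty := by
    refine ⟨_, (Finset.range n).map ⟨Nat.succ, Nat.succ_injective⟩, ?_, ?_, rfl⟩
    · intro a ha
      obtain ⟨b, _, rfl⟩ := Finset.mem_map.1 ha
      exact Nat.succ_pos b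
    · rw [Finset.card_map, Finset.card_range]
  exact Nat.sInf_mem h1

theorem fac_div (a b p : ℕ) (ha : 0 < a) (hb : 0 < b) :
    (b / Nat.gcd a b).factorization p = b.factorization p - a.factorization p := by
  rw [Nat.factorization_div (Nat.gcd_dvd_right a b), Nat.factorization_gcd ha.ne' hb.ne']
  rw [Finsupp.tsub_apply, Finsupp.inf_apply]
  omega

theorem mem_T {ι : Type} (X : Finset (ι → ℤ)) (t : ι → ℕ) :
    t ∈ T X ↔ ∃ p ∈ X ×ˢ X, (fun i => (p.2 i - p.1 i).toNat) = t := by
  unfold T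
  exact @Finset.mem_image _ _ (fun a b => Classical.propDecidable (a = b)) _ _ _

theorem s_NV : S_NV := by
  classical
  intro n
  obtain ⟨A, hpos, hcard, hR⟩ := h_mem n
  let N := A.sup id + 1
  have hN : ∀ a ∈ A, a < N := fun a ha => Nat.lt_succ_of_le (Finset.le_sup (f := id) ha)
  let x : ℕ → (Fin N → ℤ) := fun a i => (a.factorization (i : ℕ) : ℤ)
  refine ⟨Fin N, inferInstance, A.image x, ?_, ?_⟩
  · rw [Finset.card_image_of_injOn, hcard]
    intro a ha b hb hab
    apply Nat.eq_of_factorization_eq (hpos a ha).ne' (hpos b hb).ne'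
    intro p
    by_cases hp : p < N
    · have h1 : (a.factorization p : ℤ) = (b.factorization p : ℤ) := congrFun hab ⟨p, hp⟩
      exact_mod_cast h1
    · have h1 := hN a ha
      have h2 := hN b hb
      rw [Nat.factorization_eq_zero_of_lt (by omega), Nat.factorization_eq_zero_of_lt (by omega)]
  · rw [← hR]
    have h1 : T (A.image x) ⊆ (R A).image (fun y => fun i : Fin N => y.factorization (i : ℕ)) := by
      intro t ht
      rw [mem_T] at ht
      obtain ⟨⟨u, v⟩, huv, rfl⟩ := ht
      obtain ⟨hu, hv⟩ := Finset.mem_product.1 huv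
      obtain ⟨a, ha, rfl⟩ := Finset.mem_image.1 hu
      obtain ⟨b, hb, rfl⟩ := Finset.mem_image.1 hv
      refine Finset.mem_image.2 ⟨b / Nat.gcd a b, ?_, ?_⟩
      · exact Finset.mem_image.2 ⟨(a, b), Finset.mem_product.2 ⟨ha, hb⟩, rfl⟩
      · ext1 i
        show (b / Nat.gcd a b).factorization (i : ℕ) =
          ((b.factorization (i : ℕ) : ℤ) - (a.factorization (i : ℕ) : ℤ)).toNat
        rw [fac_div a b i (hpos a ha) (hpos b hb)]
        omega
    exact (Finset.card_le_card h1).trans Finset.card_image_le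

end Pool.Agent.L7h44.RQ5
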