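import Pool.Agent.L7h35.RQ5.Stm

set_option autoImplicit false

/-! Project QR, part VN. -/

namespace Pool.Agent.L7h44.RQ5

open Pool.Agent.L7h35.RQ5

/-- the product of the prime powers -/
def E {ι : Type} [Fintype ι] (P u : ι → ℕ) : ℕ := ∏ i, P i ^ u i

theorem E_div {ι : Type} [Fintype ι] (P : ι → ℕ) (hP : ∀ i, (P i).Prime)
    (hinj : Function.Injective P) (u v : ι → ℕ) :
    E P v / Nat.gcd (E P u) (E P v) = E P (fun i => v i - u i) := by
  have h1 : ∀ u v : ι → ℕ, E P u = E P (fun i => min (u i) (v i)) * E P (fun i => u i - v i) := by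
    intro u v
    unfold E
    rw [← Finset.prod_mul_distrib]
    apply Finset.prod_congr rfl
    intro i _
    rw [← pow_add]
    congr 1
    show u i = min (u i) (v i) + (u i - v i)
    omega
  have h2 : Nat.Coprime (E P (fun i => u i - v i)) (E P (fun i => v i - u i)) := by
    apply Nat.Coprime.prod_left
    intro i _
    apply Nat.Coprime.prod_right
    intro j _
    by_cases hij : i = j
    · subst hij
      show Nat.Coprime (P i ^ (u i - v i)) (P i ^ (v i - u i))
      rcases le_total (u i) (v i) with h | h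
      · rw [Nat.sub_eq_zero_of_le h, pow_zero]
        exact Nat.coprime_one_left _
      · rw [Nat.sub_eq_zero_of_le h, pow_zero]
        exact Nat.coprime_one_right _
    · apply Nat.Coprime.pow
      exact (Nat.coprime_primes (hP i) (hP j)).2 fun h => hij (hinj h)
  have h3 : E P v = E P (fun i => min (u i) (v i)) * E P (fun i => v i - u i) := by
    rw [h1 v u]
    congr 2
    ext1 i
    exact min_comm _ _
  have h4 : 0 < E P (fun i => min (u i) (v i)) :=
    Finset.prod_pos fun i _ => pow_pos (hP i).pos _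
  have h5 : Nat.gcd (E P u) (E P v) = E P (fun i => min (u i) (v i)) := by
    rw [h3, h1 u v, Nat.gcd_mul_left, h2, mul_one]
  rw [h5, h3, Nat.mul_div_cancel_left _ h4]

theorem E_one {ι : Type} [Fintype ι] (P : ι → ℕ) (hP : ∀ i, (P i).Prime) (u : ι → ℕ)
    (h : E P u = 1) (i : ι) : u i = 0 := by
  unfold E at h
  have h1 : P i ^ u i ∣ 1 := by
    rw [← h]
    exact Finset.dvd_prod_of_mem (fun i => P i ^ u i) (Finset.mem_univ i)
  have h2 := Nat.dvd_one.1 h1
  by_contra hne
  have h3 := Nat.one_lt_pow hne (hP i).one_lt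
  omega

theorem mem_T' {ι : Type} (X : Finset (ι → ℤ)) (t : ι → ℕ) :
    t ∈ T X ↔ ∃ p ∈ X ×ˢ X, (fun i => (p.2 i - p.1 i).toNat) = t := by
  unfold T
  exact @Finset.mem_image _ _ (fun a b => Classical.propDecidable (a = b)) _ _ _

theorem s_VN : S_VN := by
  classical
  intro ι _ X
  let P : ι → ℕ := fun i => Nat.nth Nat.Prime (Fintype.equivFin ι i)
  have hP : ∀ i, (P i).Prime := fun i => Nat.prime_nth_prime _
  have hinj : Function.Injective P := by
    intro i j hij
    have h1 := Nat.nth_injective Nat.infinite_setOfPred_prime hij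
    exact (Fintype.equivFin ι).injective (Fin.ext h1)
  obtain ⟨m, hm⟩ : ∃ m : ℤ, ∀ x ∈ X, ∀ i, m ≤ x i := by
    obtain ⟨m, hm⟩ := ((X ×ˢ (Finset.univ : Finset ι)).image
      (fun p : (ι → ℤ) × ι => p.1 p.2)).bddBelow
    refine ⟨m, fun x hx i => hm ?_⟩
    exact_mod_cast Finset.mem_image.2 ⟨(x, i), Finset.mem_product.2 ⟨hx, Finset.mem_univ i⟩, rfl⟩
  let a : (ι → ℤ) → ℕ := fun x => E P (fun i => (x i - m).toNat)
  have hdiv : ∀ x ∈ X, ∀ y ∈ X, a y / Nat.gcd (a x) (a y) = E P (fun i => (y i - x i).toNat) := by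
    intro x hx y hy
    show E P _ / Nat.gcd (E P _) (E P _) = _
    rw [E_div P hP hinj]
    congr 1
    ext1 i
    have h1 := hm x hx i
    have h2 := hm y hy i
    omega
  have hpos : ∀ x, 0 < a x := fun x => Finset.prod_pos fun i _ => pow_pos (hP i).pos _
  have hinjX : Set.InjOn a (X : Set (ι → ℤ)) := by
    intro x hx y hy hxy
    ext1 i
    have h1 := hdiv x hx y hy
    have h2 := hdiv y hy x hx
    rw [hxy, Nat.gcd_self, Nat.div_self (hpos y)] at h1
    rw [hxy, Nat.gcd_self, Nat.div_self (hpos y)] at h2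
    have h3 := E_one P hP _ h1.symm i
    have h4 := E_one P hP _ h2.symm i
    omega
  have h1 : h X.card ≤ (R (X.image a)).card := by
    apply Nat.sInf_le
    refine ⟨X.image a, ?_, Finset.card_image_of_injOn hinjX, rfl⟩
    intro b hb
    obtain ⟨x, _, rfl⟩ := Finset.mem_image.1 hb
    exact hpos x
  refine h1.trans ?_
  have h2 : R (X.image a) ⊆ (T X).image (E P) := by
    intro t ht
    unfold R at ht
    obtain ⟨⟨u, v⟩, huv, rfl⟩ := Finset.mem_image.1 ht
    obtain ⟨hu, hv⟩ := Finset.mem_product.1 huv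
    obtain ⟨x, hx, rfl⟩ := Finset.mem_image.1 hu
    obtain ⟨y, hy, rfl⟩ := Finset.mem_image.1 hv
    refine Finset.mem_image.2 ⟨fun i => (y i - x i).toNat, ?_, (hdiv x hx y hy).symm⟩
    exact (mem_T' _ _).2 ⟨(x, y), Finset.mem_product.2 ⟨hx, hy⟩, rfl⟩
  exact (Finset.card_le_card h2).trans Finset.card_image_le

end Pool.Agent.L7h44.RQ5
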